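import Pool.Agent.Helper3.PP.Good
import Pool.Agent.Helper3.PP.Poly

/-!
# Primitive polynomials over GF(2) with few terms (MP_4ed2e5_nt)

For infinitely many `n` there is a primitive polynomial of degree `n` over `GF(2)` with at most
`13 (log₂ n)²` terms.
-/

set_option autoImplicit false

namespace Pool.Agent.Results.MP_4ed2e5_nt.LogSquaredTerms

open Pool.Agent.Helper3.PP

theorem result :
    ∀ N : ℕ, ∃ n : ℕ, N ≤ n ∧
      ∃ p : Polynomial (ZMod 2),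
        p.natDegree = n ∧
        Irreducible p ∧
        p ∣ (Polynomial.X ^ (2 ^ n - 1) - 1) ∧
        (∀ k : ℕ, 0 < k → k < 2 ^ n - 1 → ¬ p ∣ (Polynomial.X ^ k - 1)) ∧
        p.support.card ≤ 13 * (Nat.log 2 n) ^ 2 := by
  intro N
  obtain ⟨i, hi⟩ : ∃ i, i = max 16 N := ⟨_, rfl⟩
  have hi16 : 16 ≤ i := hi ▸ le_max_left _ _
  have hiN : N ≤ i := hi ▸ le_max_right _ _
  obtain ⟨l, hl⟩ : ∃ l, l = 2 ^ i := ⟨_, rfl⟩
  have hil : i < l := hl ▸ Nat.lt_two_pow_self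
  have hlQ : l < 2 ^ l := Nat.lt_two_pow_self
  obtain ⟨y, α, β, hord, hα, hβ, hy⟩ :=
    exists_y (K := AlgebraicClosure (ZMod 2)) i l hi16 hl
  have hn : (2 ^ (5 * l)) ^ (2 ^ l + 1) = 2 ^ (5 * l * (2 ^ l + 1)) := by rw [← pow_mul]
  rw [hn] at hord
  obtain ⟨p, hp1, hp2, hp3, hp4, hp5⟩ :=
    exists_poly (5 * l) (2 ^ l + 1) (by omega) (by omega) y α β hα hβ hord hy
  have hlarge : 2 ^ l ≤ 5 * l * (2 ^ l + 1) := by nlinarith
  refine ⟨5 * l * (2 ^ l + 1), by omega, p, hp1, hp2, hp3, hp4, ?_⟩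
  have h1 : l ≤ Nat.log 2 (5 * l * (2 ^ l + 1)) := by
    have h2 := Nat.log_mono_right (b := 2) hlarge
    rwa [Nat.log_pow (by norm_num)] at h2
  have h2 : 2 * p.support.card ≤ 2 * (13 * l ^ 2) := by
    refine hp5.trans ?_
    nlinarith
  have h3 : 13 * l ^ 2 ≤ 13 * (Nat.log 2 (5 * l * (2 ^ l + 1))) ^ 2 :=
    Nat.mul_le_mul_left _ (Nat.pow_le_pow_left h1 2)
  omega

end Pool.Agent.Results.MP_4ed2e5_nt.LogSquaredTerms
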