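import Pool.Agent.Helper94.SM.Six

/-!
# Primitive polynomials over GF(2) that divide a polynomial with six terms (MP_4ed2e5_nt)

For infinitely many `n` there is a primitive polynomial of degree `n` over `GF(2)` which divides a polynomial with at
most six terms, constant term `1` and degree less than `n ^ 11`.
-/

set_option autoImplicit false

namespace Pool.Agent.Results.MP_4ed2e5_nt.SixTermMultiples

theorem result :
    ∀ N : ℕ, ∃ n : ℕ, N ≤ n ∧
      ∃ p s : Polynomial (ZMod 2),
        p.natDegree = n ∧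
        Irreducible p ∧
        p ∣ (Polynomial.X ^ (2 ^ n - 1) - 1) ∧
        (∀ k : ℕ, 0 < k → k < 2 ^ n - 1 → ¬ p ∣ (Polynomial.X ^ k - 1)) ∧
        p ∣ s ∧ s.coeff 0 = 1 ∧ s.support.card ≤ 6 ∧ s.natDegree < n ^ 11 :=
  fun N => Pool.Agent.Helper94.SM.main6 N

end Pool.Agent.Results.MP_4ed2e5_nt.SixTermMultiples
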